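import Pool.Agent.H70.PW.Targets
import Pool.Agent.H57.NB.DTL

/-!
# The Fourier coefficients of a decision tree (module DTK)
-/

set_option autoImplicit false

namespace Pool.Agent.H48.PW.DTK

open Finset Pool.Agent.H6.NB Pool.Agent.H70.OQ Pool.Agent.H70.PW

open Pool.Agent.H57.NB.DTL in
theorem dtk : T_DTK := by
  intro V _ _ t w k hw
  have hpos : (0 : ℝ) < 2 ^ Fintype.card V := by positivity
  rw [L1k]
  calc ∑ S ∈ powersetCard k (univ : Finset V), |hat (fun y => bi (t.eval y)) S|
      ≤ ∑ S ∈ powersetCard k (univ : Finset V),
        ((univ.filter (fun y : V → Bool => S ⊆ qv y t)).card : ℝ) / 2 ^ Fintype.card V :=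
        Finset.sum_le_sum fun S _ => hat_le t S
    _ = (∑ y : V → Bool, ((powersetCard k (univ : Finset V)).filter (fun S => S ⊆ qv y t)).card : ℕ) /
        2 ^ Fintype.card V := by
        rw [← Finset.sum_div]
        congr 1
        rw [← Nat.cast_sum]
        congr 1
        simp only [Finset.card_filter]
        exact Finset.sum_comm
    _ ≤ (∑ y : V → Bool, w ^ k : ℕ) / 2 ^ Fintype.card V := by
        refine div_le_div_of_nonneg_right ?_ hpos.le
        norm_cast
        refine Finset.sum_le_sum fun y _ => ?_
        have h1 : (powersetCard k (univ : Finset V)).filter (fun S => S ⊆ qv y t) =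
            powersetCard k (qv y t) := by
          ext S
          simp only [mem_filter, mem_powersetCard, subset_univ, true_and]
          tauto
        rw [h1, card_powersetCard]
        have h2 : (qv y t).card ≤ w := (card_qv y t).trans hw
        calc (qv y t).card.choose k ≤ (qv y t).card ^ k := Nat.choose_le_pow _ _
          _ ≤ w ^ k := Nat.pow_le_pow_left h2 k
    _ = (w : ℝ) ^ k := by
        rw [Finset.sum_const, Finset.card_univ, Fintype.card_fun, Fintype.card_bool]
        rw [smul_eq_mul]
        push_cast
        field_simp

end Pool.Agent.H48.PW.DTK
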