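import Pool.Agent.H70.PW.Targets

/-!
# The last special row (module LSP)
-/

set_option autoImplicit false

namespace Pool.Agent.H48.PW.LSP

open Finset Pool.Agent.H6.NB Pool.Agent.H70.OQ Pool.Agent.H70.PW

theorem exists_ofFn {n : ℕ} {u : List Bool} (hu : u.length = n) :
    ∃ u' : Fin n → Bool, List.ofFn u' = u := by
  subst hu
  exact ⟨u.get, List.ofFn_get u⟩

theorem lsp (h1 : T_LTR) : T_LSP := by
  obtain ⟨hirr, htr, -, -, -⟩ := h1
  refine ⟨fun K n O b hb => ⟨?_, ?_⟩, fun n J Q R hR => ⟨?_, ?_⟩⟩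
  · rintro ⟨u, hu, hs, hl, hm⟩
    rw [List.length_replicate] at hu
    obtain ⟨x, rfl⟩ := exists_ofFn hu
    refine ⟨x, (hb x).1 hs, hl, fun x' hx' => hm (List.ofFn x') ?_ ((hb x').2 hx')⟩
    rw [List.length_replicate, List.length_ofFn]
  · rintro ⟨x, hx, hl, hm⟩
    refine ⟨List.ofFn x, by rw [List.length_replicate, List.length_ofFn], (hb x).2 hx, hl, ?_⟩
    intro v hv hs
    rw [List.length_replicate] at hv
    obtain ⟨x', rfl⟩ := exists_ofFn hv
    exact hm x' ((hb x').1 hs)
  · intro j hj j' hj' c c' x hx hx'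
    rcases lt_trichotomy j j' with h | h | h
    · exact absurd (hR.late j' hj' j h c c' x hx x hx') (hirr _)
    · exact h
    · exact absurd (hR.late j hj j' h c' c x hx' x hx) (hirr _)
  · rintro j hj c b ⟨⟨x', hx', hb'⟩, hT⟩
    constructor
    · rintro ⟨x, hx, hl, hm⟩
      rcases hT x hx with h | ⟨j', hj', c', h⟩
      · have h2 := hR.last j hj c x h
        rw [hl] at h2
        exact (Option.some.inj h2).symm
      · exact absurd (hR.late j hj j' hj' c' c x h x' hx') (hm x' hb')
    · intro hc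
      subst hc
      let r : (Fin n → Bool) → (Fin n → Bool) → Prop := fun y z =>
        Later (List.ofFn z) (List.ofFn y)
      haveI : IsTrans (Fin n → Bool) r := ⟨fun a b c hab hbc => htr _ _ _ hbc hab⟩
      haveI : Std.Irrefl r := ⟨fun a => hirr _⟩
      have hwf : WellFounded r := Finite.wellFounded_of_trans_of_irrefl r
      obtain ⟨x, hx, hmax⟩ := hwf.has_min {x | b x = false} ⟨x', hb'⟩
      have hx0 : b x = false := hx
      refine ⟨x, hx0, ?_, fun y hy => hmax y hy⟩
      rcases hT x hx0 with h | ⟨j', hj', c', h⟩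
      · exact hR.last j hj true x h
      · exact absurd (hR.late j hj j' hj' c' true x h x' hx') (hmax x' hb')

end Pool.Agent.H48.PW.LSP
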